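import Mathlib

set_option autoImplicit false

open Set Filter Topology Cardinal TopologicalSpace

namespace Pool.Agent.Results.MP_5155e4_gt.Counterexample

/-- The space `C_p(X)` of continuous real functions on `X`, with the topology of pointwise
convergence (the subspace topology from `X → ℝ`). -/
abbrev Cp (X : Type) [TopologicalSpace X] : Type := {f : X → ℝ // Continuous f}

/-- `Z` is a Lindelöf `Σ`-space: a continuous image of a closed subspace of `K × M`, with `K` compact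
Hausdorff and `M` separable metrizable. -/
def IsLindelofSigma (Z : Type) [TopologicalSpace Z] : Prop :=
  ∃ (K M : Type) (_ : TopologicalSpace K) (_ : TopologicalSpace M) (C : Set (K × M)) (g : C → Z),
    CompactSpace K ∧ T2Space K ∧ SeparableSpace M ∧ MetrizableSpace M ∧
      IsClosed C ∧ Continuous g ∧ Function.Surjective g

/-! ### The index set -/

/-- The index set. -/
inductive S (κ : Type) : Type
  | base (k : κ) (l : ℕ) : S κ
  | node (k : κ) (l : ℕ) (len : ℕ → ℕ) (σ : ℕ → ℕ → S κ) : S κ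

variable {κ : Type}

def S.tag : S κ → κ
  | .base k _ => k
  | .node k _ _ _ => k

def S.lab : S κ → ℕ
  | .base _ l => l
  | .node _ l _ _ => l

def S.att : S κ → ℕ → Set (S κ)
  | .base _ _, _ => ∅
  | .node _ _ len σ, n => {a | ∃ i < len n, a = σ n i}

/-- `a ≺ b`: `a` is in one of the finite sets attached to `b`. -/
def Prec (a b : S κ) : Prop := ∃ n, a ∈ b.att n

theorem att_finite (b : S κ) (n : ℕ) : (b.att n).Finite := by
  cases b with
  | base k l => exact Set.finite_empty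
  | node k l len σ =>
    have : S.att (S.node k l len σ) n = (fun i => σ n i) '' {i | i < len n} := by
      ext a
      constructor
      · rintro ⟨i, hi, rfl⟩
        exact ⟨i, hi, rfl⟩
      · rintro ⟨i, hi, rfl⟩
        exact ⟨i, hi, rfl⟩
    rw [this]
    exact (Set.finite_lt_nat _).image _

theorem prec_wf : WellFounded (Prec (κ := κ)) := by
  constructor
  intro b
  induction b with
  | base k l =>
    constructor
    rintro a ⟨n, hn⟩
    exact absurd hn (Set.notMem_empty a)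
  | node k l len σ ih =>
    constructor
    rintro a ⟨n, i, hi, rfl⟩
    exact ih n i

theorem prec_asymm {a b : S κ} (h : Prec a b) : ¬ Prec b a := prec_wf.asymmetric _ _ h

theorem prec_irrefl (a : S κ) : ¬ Prec a a := fun h => prec_asymm h h

theorem exists_node (k : κ) (l : ℕ) (τ : ℕ → Finset (S κ)) :
    ∃ b : S κ, b.tag = k ∧ b.lab = l ∧ ∀ n, b.att n = ↑(τ n) := by
  classical
  refine ⟨S.node k l (fun n => (τ n).toList.length) (fun n i => (τ n).toList.getD i (S.base k 0)),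
    rfl, rfl, ?_⟩
  intro n
  ext a
  constructor
  · rintro ⟨i, hi, rfl⟩
    change (τ n).toList.getD i (S.base k 0) ∈ ↑(τ n)
    rw [List.getD_eq_getElem _ _ hi]
    exact Finset.mem_toList.mp (List.getElem_mem hi)
  · intro ha
    obtain ⟨i, hi, hia⟩ := List.getElem_of_mem (Finset.mem_toList.mpr ha)
    refine ⟨i, hi, ?_⟩
    change a = (τ n).toList.getD i (S.base k 0)
    rw [List.getD_eq_getElem _ _ hi]; exact hia.symm

theorem exists_rec {D : Type} (Q : ∀ n : ℕ, (∀ m, m < n → D) → D → Prop) (h : ∀ n f, ∃ d, Q n f d) :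
    ∃ F : ℕ → D, ∀ n, Q n (fun m _ => F m) (F n) := by
  classical
  let F : ℕ → D := (wellFounded_lt (α := ℕ)).fix (fun n f => (h n f).choose)
  refine ⟨F, fun n => ?_⟩
  have h1 : F n = (h n (fun m _ => F m)).choose := by
    simp only [F]
    rw [WellFounded.fix_eq]
  rw [h1]
  exact (h n (fun m _ => F m)).choose_spec

/-- Existence of the sequences of nodes attached to a sequence of finite sets. -/
theorem exists_chain (k : κ) (τ : ℕ → Finset (S κ)) :
    ∃ x : ℕ → S κ, ∀ j, (x j).tag = k ∧ (x j).lab = j ∧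
      ∀ n, (x j).att n = ↑(τ n) ∪ {a | ∃ i < j, a = x i} := by
  classical
  refine exists_rec (D := S κ) (fun j f d => d.tag = k ∧ d.lab = j ∧
      ∀ n, d.att n = ↑(τ n) ∪ {a | ∃ i, ∃ h : i < j, a = f i h}) ?_ |>.imp ?_
  · intro j f
    have hfin : {a | ∃ i, ∃ h : i < j, a = f i h}.Finite := by
      have : {a | ∃ i, ∃ h : i < j, a = f i h} = Set.range (fun i : Fin j => f i.1 i.2) := by
        ext a
        constructor
        · rintro ⟨i, h, rfl⟩
          exact ⟨⟨i, h⟩, rfl⟩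
        · rintro ⟨⟨i, h⟩, rfl⟩
          exact ⟨i, h, rfl⟩
      rw [this]
      exact Set.finite_range _
    obtain ⟨b, hb1, hb2, hb3⟩ := exists_node k j (fun n => τ n ∪ hfin.toFinset)
    refine ⟨b, hb1, hb2, fun n => ?_⟩
    rw [hb3 n]
    push_cast
    rw [Set.Finite.coe_toFinset]
  · intro x hx j
    obtain ⟨h1, h2, h3⟩ := hx j
    refine ⟨h1, h2, fun n => ?_⟩
    rw [h3 n]
    congr 1
    ext a
    constructor
    · rintro ⟨i, h, rfl⟩
      exact ⟨i, h, rfl⟩
    · rintro ⟨i, h, rfl⟩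
      exact ⟨i, h, rfl⟩

/-! ### Admissible sets -/

/-- The finite sets attached to `b` form a sunflower. -/
def V (b : S κ) : Prop := ∀ a n n', n ≠ n' → a ∈ b.att n → a ∈ b.att n' → ∀ m, a ∈ b.att m

def Adm (t : S κ → Bool) : Prop :=
  (∀ b, t b = true → V b) ∧
  (∀ a b, t a = true → t b = true → a ≠ b → Prec a b ∨ Prec b a) ∧
  (∀ b a a', t b = true → t a = true → t a' = true → Prec a b → Prec a' b →
    ∃ n, a ∈ b.att n ∧ a' ∈ b.att n)

theorem Adm.mono {t t' : S κ → Bool} (h : Adm t) (h' : ∀ a, t' a = true → t a = true) : Adm t' :=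
  ⟨fun b hb => h.1 b (h' b hb), fun a b ha hb => h.2.1 a b (h' a ha) (h' b hb),
    fun b a a' hb ha ha' => h.2.2 b a a' (h' b hb) (h' a ha) (h' a' ha')⟩

/-- The compact pieces. -/
def KK (κ : Type) (m : ℕ) : Set (S κ → Bool) :=
  {t | Adm t ∧ ∀ (l : ℕ) (F : Finset (S κ)), (∀ a ∈ F, t a = true ∧ a.lab = l) → F.card ≤ m}

theorem KK_mono {m m' : ℕ} (h : m ≤ m') : KK κ m ⊆ KK κ m' :=
  fun _ ht => ⟨ht.1, fun l F hF => (ht.2 l F hF).trans h⟩

theorem KK_sub {m : ℕ} {t t' : S κ → Bool} (h : t ∈ KK κ m) (h' : ∀ a, t' a = true → t a = true) :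
    t' ∈ KK κ m :=
  ⟨h.1.mono h', fun l F hF => h.2 l F fun a ha => ⟨h' a (hF a ha).1, (hF a ha).2⟩⟩

theorem mem_nhds_iff' (z : S κ → Bool) (U : Set (S κ → Bool)) :
    U ∈ 𝓝 z ↔ ∃ G : Finset (S κ), ∀ t, (∀ a ∈ G, t a = z a) → t ∈ U := by
  constructor
  · intro hU
    obtain ⟨W, hWU, hWo, hzW⟩ := mem_nhds_iff.mp hU
    obtain ⟨I, u, hu, hI⟩ := isOpen_pi_iff.mp hWo z hzW
    refine ⟨I, fun t ht => hWU (hI ?_)⟩
    intro a ha
    rw [ht a ha]
    exact (hu a ha).2
  · rintro ⟨G, hG⟩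
    have h1 : (⋂ a ∈ G, (fun t : S κ → Bool => t a) ⁻¹' {z a}) ∈ 𝓝 z := by
      rw [Filter.biInter_finset_mem]
      intro a _
      exact (continuous_apply a).continuousAt.preimage_mem_nhds (by simp)
    refine Filter.mem_of_superset h1 fun t ht => hG t fun a ha => ?_
    simpa using Set.mem_iInter₂.mp ht a ha

theorem isClosed_of_local (C : Set (S κ → Bool))
    (h : ∀ t, t ∉ C → ∃ G : Finset (S κ), ∀ t', (∀ a ∈ G, t' a = t a) → t' ∉ C) : IsClosed C := by
  rw [← isOpen_compl_iff, isOpen_iff_mem_nhds]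
  intro t ht
  exact (mem_nhds_iff' t _).mpr (h t ht)

theorem KK_closed (m : ℕ) : IsClosed (KK κ m) := by
  classical
  apply isClosed_of_local
  intro t ht
  by_cases h1 : ∀ b, t b = true → V b
  · by_cases h2 : ∀ a b, t a = true → t b = true → a ≠ b → Prec a b ∨ Prec b a
    · by_cases h3 : ∀ b a a', t b = true → t a = true → t a' = true → Prec a b → Prec a' b →
          ∃ n, a ∈ b.att n ∧ a' ∈ b.att n
      · by_cases h4 : ∀ (l : ℕ) (F : Finset (S κ)), (∀ a ∈ F, t a = true ∧ a.lab = l) → F.card ≤ m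
        · exact absurd ⟨⟨h1, h2, h3⟩, h4⟩ ht
        · push Not at h4
          obtain ⟨l, F, hF, hFm⟩ := h4
          refine ⟨F, fun t' ht' hK => ?_⟩
          have := hK.2 l F fun a ha => ⟨by rw [ht' a ha]; exact (hF a ha).1, (hF a ha).2⟩
          omega
      · push Not at h3
        obtain ⟨b, a, a', hb, ha, ha', hab, hab', hn⟩ := h3
        refine ⟨{b, a, a'}, fun t' ht' hK => ?_⟩
        obtain ⟨n, hn1, hn2⟩ := hK.1.2.2 b a a' (by rw [ht' b (by simp)]; exact hb)
          (by rw [ht' a (by simp)]; exact ha) (by rw [ht' a' (by simp)]; exact ha') hab hab'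
        exact hn n hn1 hn2
    · push Not at h2
      obtain ⟨a, b, ha, hb, hab, h5, h6⟩ := h2
      refine ⟨{a, b}, fun t' ht' hK => ?_⟩
      rcases hK.1.2.1 a b (by rw [ht' a (by simp)]; exact ha) (by rw [ht' b (by simp)]; exact hb)
        hab with h | h
      · exact h5 h
      · exact h6 h
  · push Not at h1
    obtain ⟨b, hb, hV⟩ := h1
    exact ⟨{b}, fun t' ht' hK => hV (hK.1.1 b (by rw [ht' b (by simp)]; exact hb))⟩

theorem KK_compact (m : ℕ) : IsCompact (KK κ m) := (KK_closed m).isCompact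

/-! ### The spaces `X ⊆ Y` -/

/-- The `σ`-compact space `Y`. -/
abbrev YY (κ : Type) : Type := {t : S κ → Bool // ∃ m, t ∈ KK κ m}

/-- The space `X`: the infinite members of `Y`. -/
abbrev XX (κ : Type) : Type :=
  {t : S κ → Bool // (∃ m, t ∈ KK κ m) ∧ {a | t a = true}.Infinite}

theorem t35_XX : T35Space (XX κ) := inferInstance

/-- The inclusion. -/
def inc (x : XX κ) : YY κ := ⟨x.1, x.2.1⟩

theorem inc_inducing : IsInducing (inc (κ := κ)) := by
  have h1 : IsInducing (fun x : XX κ => (inc x).1) := IsInducing.subtypeVal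
  have h2 : IsInducing (fun y : YY κ => y.1) := IsInducing.subtypeVal
  exact (IsInducing.of_comp_iff h2).mp h1

theorem mem_nhds_X (z : XX κ) (U : Set (XX κ)) :
    U ∈ 𝓝 z ↔ ∃ G : Finset (S κ), ∀ t : XX κ, (∀ a ∈ G, t.1 a = z.1 a) → t ∈ U := by
  rw [mem_nhds_induced]
  constructor
  · rintro ⟨W, hW, hWU⟩
    obtain ⟨G, hG⟩ := (mem_nhds_iff' z.1 W).mp hW
    exact ⟨G, fun t ht => hWU (hG t.1 ht)⟩
  · rintro ⟨G, hG⟩
    exact ⟨{t | ∀ a ∈ G, t a = z.1 a}, (mem_nhds_iff' z.1 _).mpr ⟨G, fun t ht => ht⟩,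
      fun t ht => hG t ht⟩

theorem mem_nhds_Y (z : YY κ) (U : Set (YY κ)) :
    U ∈ 𝓝 z ↔ ∃ G : Finset (S κ), ∀ t : YY κ, (∀ a ∈ G, t.1 a = z.1 a) → t ∈ U := by
  rw [mem_nhds_induced]
  constructor
  · rintro ⟨W, hW, hWU⟩
    obtain ⟨G, hG⟩ := (mem_nhds_iff' z.1 W).mp hW
    exact ⟨G, fun t ht => hWU (hG t.1 ht)⟩
  · rintro ⟨G, hG⟩
    exact ⟨{t | ∀ a ∈ G, t a = z.1 a}, (mem_nhds_iff' z.1 _).mpr ⟨G, fun t ht => ht⟩,
      fun t ht => hG t ht⟩

open Classical in
/-- Indicator functions. -/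
noncomputable def ind (A : Set (S κ)) : S κ → Bool := fun a => decide (a ∈ A)

theorem ind_true {A : Set (S κ)} {a : S κ} : ind A a = true ↔ a ∈ A := by
  simp [ind]

/-- The chain lemma. -/
theorem chain_mem {k : κ} {τ : ℕ → Finset (S κ)} {x : ℕ → S κ}
    (hx : ∀ j, (x j).tag = k ∧ (x j).lab = j ∧ ∀ n, (x j).att n = ↑(τ n) ∪ {a | ∃ i < j, a = x i})
    (hτ : ∀ a n n', n ≠ n' → a ∈ τ n → a ∈ τ n' → ∀ m, a ∈ τ m) (n : ℕ)
    (hn : Adm (ind (↑(τ n) : Set (S κ)))) :
    ind (↑(τ n) ∪ Set.range x) ∈ KK κ ((τ n).card + 1) ∧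
      {a | ind (↑(τ n) ∪ Set.range x) a = true}.Infinite := by
  classical
  have hxinj : Function.Injective x := fun i j h => by
    rw [← (hx i).2.1, ← (hx j).2.1, h]
  have hlt : ∀ i j, i < j → Prec (x i) (x j) := fun i j h => by
    refine ⟨n, ?_⟩
    rw [(hx j).2.2 n]
    exact Or.inr ⟨i, h, rfl⟩
  have hτx : ∀ a ∈ τ n, ∀ j, Prec a (x j) := fun a ha j => by
    refine ⟨n, ?_⟩
    rw [(hx j).2.2 n]
    exact Or.inl ha
  refine ⟨⟨⟨?_, ?_, ?_⟩, ?_⟩, ?_⟩
  · intro b hb
    rw [ind_true] at hb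
    rcases hb with hb | ⟨j, rfl⟩
    · exact hn.1 b (ind_true.mpr hb)
    · intro a p p' hpp' ha ha' q
      rw [(hx j).2.2] at ha ha' ⊢
      rcases ha with ha | ha
      · rcases ha' with ha' | ha'
        · exact Or.inl (hτ a p p' hpp' ha ha' q)
        · exact Or.inr ha'
      · exact Or.inr ha
  · intro a b ha hb hab
    rw [ind_true] at ha hb
    rcases ha with ha | ⟨i, rfl⟩
    · rcases hb with hb | ⟨j, rfl⟩
      · exact hn.2.1 a b (ind_true.mpr ha) (ind_true.mpr hb) hab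
      · exact Or.inl (hτx a ha j)
    · rcases hb with hb | ⟨j, rfl⟩
      · exact Or.inr (hτx b hb i)
      · rcases lt_trichotomy i j with h | h | h
        · exact Or.inl (hlt i j h)
        · exact absurd (congrArg x h) hab
        · exact Or.inr (hlt j i h)
  · intro b a a' hb ha ha' hab hab'
    rw [ind_true] at ha ha' hb
    rcases hb with hb | ⟨j, rfl⟩
    · have key : ∀ c, c ∈ (↑(τ n) ∪ Set.range x : Set (S κ)) → Prec c b → c ∈ τ n := by
        intro c hc hcb
        rcases hc with hc | ⟨i, rfl⟩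
        · exact hc
        · exact absurd hcb (prec_asymm (hτx b hb i))
      exact hn.2.2 b a a' (ind_true.mpr hb) (ind_true.mpr (key a ha hab))
        (ind_true.mpr (key a' ha' hab')) hab hab'
    · have key : ∀ c, c ∈ (↑(τ n) ∪ Set.range x : Set (S κ)) → Prec c (x j) → c ∈ (x j).att n := by
        intro c hc hcb
        rw [(hx j).2.2 n]
        rcases hc with hc | ⟨i, rfl⟩
        · exact Or.inl hc
        · rcases lt_trichotomy i j with h | h | h
          · exact Or.inr ⟨i, h, rfl⟩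
          · rw [h] at hcb
            exact absurd hcb (prec_irrefl _)
          · exact absurd hcb (prec_asymm (hlt j i h))
      exact ⟨n, key a ha hab, key a' ha' hab'⟩
  · intro l F hF
    have hsub : F ⊆ insert (x l) (τ n) := by
      intro a ha
      obtain ⟨h1, h2⟩ := hF a ha
      rw [ind_true] at h1
      rcases h1 with h1 | ⟨j, rfl⟩
      · exact Finset.mem_insert_of_mem h1
      · rw [(hx j).2.1] at h2
        rw [h2]
        exact Finset.mem_insert_self _ _
    exact (Finset.card_le_card hsub).trans (Finset.card_insert_le _ _)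
  · refine (Set.infinite_range_of_injective hxinj).mono ?_
    rintro a ⟨j, rfl⟩
    exact ind_true.mpr (Or.inr ⟨j, rfl⟩)

/-! ### First countability -/

theorem infinite_not_subset_of_finite {A B : Set (S κ)} (hA : A.Infinite) (hB : B.Finite) :
    ∃ a ∈ A, a ∉ B := by
  by_contra h
  push Not at h
  exact hA (hB.subset h)

theorem supp_countable {t : S κ → Bool} {m : ℕ} (ht : t ∈ KK κ m) : {a | t a = true}.Countable := by
  have h1 : {a | t a = true} = ⋃ l : ℕ, {a | t a = true ∧ a.lab = l} := by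
    ext a
    simp
  rw [h1]
  refine Set.countable_iUnion fun l => ?_
  refine Set.Finite.countable ?_
  by_contra hinf
  obtain ⟨F, hF1, hF2⟩ := (show {a : S κ | t a = true ∧ a.lab = l}.Infinite from hinf).exists_subset_card_eq (m + 1)
  have := ht.2 l F fun a ha => hF1 ha
  omega

theorem label_finite {t : S κ → Bool} {m : ℕ} (ht : t ∈ KK κ m) (l : ℕ) :
    {a | t a = true ∧ a.lab = l}.Finite := by
  by_contra hinf
  obtain ⟨F, hF1, hF2⟩ := (show {a : S κ | t a = true ∧ a.lab = l}.Infinite from hinf).exists_subset_card_eq (m + 1)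
  have := ht.2 l F fun a ha => hF1 ha
  omega

/-- The countable set of coordinates which determine the topology at `x`. -/
def CC (x : XX κ) : Set (S κ) := {a | x.1 a = true} ∪ ⋃ a ∈ {a | x.1 a = true}, ⋃ n, a.att n

theorem CC_countable (x : XX κ) : (CC x).Countable := by
  obtain ⟨m, hm⟩ := x.2.1
  have h1 := supp_countable hm
  exact h1.union (h1.biUnion fun a _ => Set.countable_iUnion fun n => (att_finite a n).countable)

theorem first_countable_key (x : XX κ) (c : S κ) (hc : c ∉ CC x) :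
    (∀ t : XX κ, t.1 c = false) ∨ ∃ a₀ a₁ : S κ, a₀ ∈ CC x ∧ a₁ ∈ CC x ∧ x.1 a₀ = true ∧
      x.1 a₁ = true ∧ ∀ t : XX κ, t.1 a₀ = true → t.1 a₁ = true → t.1 c = false := by
  classical
  by_cases hV : V c
  · right
    have hnot : ∀ a, x.1 a = true → ¬ Prec c a := by
      rintro a ha ⟨n, hn⟩
      refine hc (Or.inr ?_)
      exact Set.mem_iUnion₂.mpr ⟨a, ha, Set.mem_iUnion.mpr ⟨n, hn⟩⟩
    -- two elements with no common attached set
    obtain ⟨a₀, a₁, h0, h1, hno⟩ : ∃ a₀ a₁ : S κ, x.1 a₀ = true ∧ x.1 a₁ = true ∧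
        ∀ n, ¬ (a₀ ∈ c.att n ∧ a₁ ∈ c.att n) := by
      obtain ⟨a₀, h0, h0'⟩ := infinite_not_subset_of_finite x.2.2 (att_finite c 0)
      by_cases h2 : ∃ n, a₀ ∈ c.att n
      · obtain ⟨n, hn⟩ := h2
        obtain ⟨a₁, h1, h1'⟩ := infinite_not_subset_of_finite x.2.2 (att_finite c n)
        refine ⟨a₀, a₁, h0, h1, ?_⟩
        rintro m ⟨hm0, hm1⟩
        by_cases hmn : m = n
        · rw [hmn] at hm1
          exact h1' hm1
        · exact h0' (hV a₀ m n hmn hm0 hn 0)
      · push Not at h2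
        exact ⟨a₀, a₀, h0, h0, fun n h => h2 n h.1⟩
    refine ⟨a₀, a₁, Or.inl h0, Or.inl h1, h0, h1, ?_⟩
    intro t ht0 ht1
    by_contra htc
    rw [Bool.not_eq_false] at htc
    have hne : ∀ a, x.1 a = true → a ≠ c := by
      rintro a ha rfl
      exact hc (Or.inl ha)
    obtain ⟨m, hm⟩ := t.2.1
    have hp : ∀ a, x.1 a = true → t.1 a = true → Prec a c := by
      intro a ha hta
      rcases hm.1.2.1 a c hta htc (hne a ha) with h | h
      · exact h
      · exact absurd h (hnot a ha)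
    obtain ⟨n, hn⟩ := hm.1.2.2 c a₀ a₁ htc ht0 ht1 (hp a₀ h0 ht0) (hp a₁ h1 ht1)
    exact hno n hn
  · left
    intro t
    by_contra htc
    rw [Bool.not_eq_false] at htc
    obtain ⟨m, hm⟩ := t.2.1
    exact hV (hm.1.1 c htc)

theorem nhds_XX (x : XX κ) : 𝓝 x = ⨅ c : CC x, 𝓟 {t : XX κ | t.1 c.1 = x.1 c.1} := by
  apply le_antisymm
  · refine le_iInf fun c => ?_
    rw [Filter.le_principal_iff, mem_nhds_X]
    exact ⟨{c.1}, fun t ht => ht c.1 (by simp)⟩
  · intro U hU
    obtain ⟨G, hG⟩ := (mem_nhds_X x U).mp hU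
    have h1 : ∀ c ∈ G, {t : XX κ | t.1 c = x.1 c} ∈ (⨅ c : CC x, 𝓟 {t : XX κ | t.1 c.1 = x.1 c.1}) := by
      intro c _
      have h2 : ∀ d : S κ, d ∈ CC x → {t : XX κ | t.1 d = x.1 d} ∈
          (⨅ c : CC x, 𝓟 {t : XX κ | t.1 c.1 = x.1 c.1}) := fun d hd =>
        Filter.mem_iInf_of_mem (⟨d, hd⟩ : CC x) (Filter.mem_principal_self _)
      by_cases hc : c ∈ CC x
      · exact h2 c hc
      · have hxc : ∀ t : XX κ, t.1 c = false → t.1 c = x.1 c := by
          intro t ht
          rw [ht]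
          symm
          by_contra h
          rw [Bool.not_eq_false] at h
          exact hc (Or.inl h)
        rcases first_countable_key x c hc with h | ⟨a₀, a₁, h0, h1, hx0, hx1, h⟩
        · exact Filter.univ_mem' fun t => hxc t (h t)
        · filter_upwards [h2 a₀ h0, h2 a₁ h1] with t ht0 ht1
          exact hxc t (h t (by rw [ht0]; exact hx0) (by rw [ht1]; exact hx1))
    have h3 := (Filter.biInter_finset_mem G).mpr h1
    refine Filter.mem_of_superset h3 fun t ht => hG t fun a ha => ?_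
    exact Set.mem_iInter₂.mp ht a ha

theorem fc_XX : FirstCountableTopology (XX κ) := by
  constructor
  intro x
  rw [nhds_XX x]
  have : Countable (CC x) := (CC_countable x).to_subtype
  infer_instance

/-! ### Density and extension -/

theorem exists_tag_notMem (hκ : ¬ (Set.univ : Set κ).Countable) (A : Set (S κ)) (hA : A.Countable) :
    ∃ k : κ, ∀ a ∈ A, a.tag ≠ k := by
  by_contra h
  push Not at h
  refine hκ ((hA.image S.tag).mono ?_)
  intro k _
  obtain ⟨a, ha, hak⟩ := h k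
  exact ⟨a, ha, hak⟩

theorem finset_of_not_infinite {t : S κ → Bool} (h : ¬ {a | t a = true}.Infinite) :
    ∃ F : Finset (S κ), ∀ a, a ∈ F ↔ t a = true := by
  rw [Set.not_infinite] at h
  exact ⟨h.toFinset, fun a => by simp⟩

theorem inc_dense (hκ : ¬ (Set.univ : Set κ).Countable) : DenseRange (inc (κ := κ)) := by
  classical
  intro s
  rw [mem_closure_iff_nhds]
  intro U hU
  obtain ⟨G, hG⟩ := (mem_nhds_Y s U).mp hU
  by_cases hs : {a | s.1 a = true}.Infinite
  · exact ⟨s, mem_of_mem_nhds hU, ⟨s.1, s.2, hs⟩, rfl⟩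
  · obtain ⟨F, hF⟩ := finset_of_not_infinite hs
    obtain ⟨k, hk⟩ := exists_tag_notMem hκ (↑G : Set (S κ)) G.countable_toSet
    obtain ⟨x, hx⟩ := exists_chain k (fun _ => F)
    obtain ⟨m, hm⟩ := s.2
    have hadm : Adm (ind (↑F : Set (S κ))) := hm.1.mono fun a ha => by
      rw [ind_true] at ha
      exact (hF a).mp ha
    obtain ⟨h1, h2⟩ := chain_mem hx (fun a n n' _ ha _ _ => ha) 0 hadm
    refine ⟨inc ⟨_, ⟨_, h1⟩, h2⟩, hG _ ?_, ⟨_, rfl⟩⟩
    intro a ha
    change ind (↑F ∪ Set.range x) a = s.1 a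
    rw [Bool.eq_iff_iff, ind_true]
    constructor
    · rintro (h | ⟨j, rfl⟩)
      · exact (hF a).mp h
      · exact absurd (hx j).1 (hk _ ha)
    · intro h
      exact Or.inl ((hF a).mpr h)

theorem extension_key (hκ : ¬ (Set.univ : Set κ).Countable) (g : XX κ → ℝ) (hg : Continuous g)
    (s : YY κ) (hs : ¬ {a | s.1 a = true}.Infinite) (ε : ℝ) (hε : 0 < ε) :
    ∃ F : Finset (S κ), ∀ z z' : XX κ, (∀ a ∈ F, z.1 a = s.1 a) → (∀ a ∈ F, z'.1 a = s.1 a) →
      |g z - g z'| < ε := by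
  classical
  by_contra hcon
  push Not at hcon
  obtain ⟨R, hR⟩ := finset_of_not_infinite hs
  -- the next point
  have hnext : ∀ (z : XX κ) (F : Finset (S κ)), ∃ z' : XX κ, (∀ a ∈ F, z'.1 a = s.1 a) ∧
      ε / 2 ≤ |g z' - g z| := by
    intro z F
    obtain ⟨z₁, z₂, h1, h2, h3⟩ := hcon F
    by_cases h4 : ε / 2 ≤ |g z₁ - g z|
    · exact ⟨z₁, h1, h4⟩
    · refine ⟨z₂, h2, ?_⟩
      push Not at h4
      have h5 : |g z₁ - g z₂| ≤ |g z₁ - g z| + |g z₂ - g z| := by
        have := abs_sub_le (g z₁) (g z) (g z₂)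
        rw [abs_sub_comm (g z) (g z₂)] at this
        exact this
      linarith
  choose next hnext1 hnext2 using hnext
  -- finite sets of coordinates on which `g` nearly depends
  have hH : ∀ z : XX κ, ∃ H : Finset (S κ), R ⊆ H ∧ ∀ t : XX κ, (∀ a ∈ H, t.1 a = z.1 a) →
      |g t - g z| < ε / 8 := by
    intro z
    have h1 : {t : XX κ | |g t - g z| < ε / 8} ∈ 𝓝 z := by
      have h2 : ContinuousAt g z := hg.continuousAt
      have h3 := Metric.continuousAt_iff'.mp h2 (ε / 8) (by linarith)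
      filter_upwards [h3] with t ht
      rwa [Real.dist_eq] at ht
    obtain ⟨G, hG⟩ := (mem_nhds_X z _).mp h1
    exact ⟨G ∪ R, Finset.subset_union_right, fun t ht => hG t fun a ha =>
      ht a (Finset.mem_union_left _ ha)⟩
  choose H hRH hH using hH
  obtain ⟨z₀, -, -⟩ := hcon ∅
  let q : ℕ → XX κ × Finset (S κ) := fun n => Nat.rec (next z₀ R, R)
    (fun _ p => (next p.1 (p.2 ∪ H p.1), p.2 ∪ H p.1)) n
  have hq0 : q 0 = (next z₀ R, R) := rfl
  have hqs : ∀ n, q (n + 1) = (next (q n).1 ((q n).2 ∪ H (q n).1), (q n).2 ∪ H (q n).1) :=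
    fun n => rfl
  have hagree : ∀ n, ∀ a ∈ (q n).2, (q n).1.1 a = s.1 a := by
    intro n
    cases n with
    | zero => rw [hq0]; exact hnext1 z₀ R
    | succ n => rw [hqs n]; exact hnext1 _ _
  have hmono : ∀ n m, n < m → H (q n).1 ⊆ (q m).2 := by
    intro n m h
    induction m with
    | zero => omega
    | succ m ih =>
      rw [hqs m]
      rcases Nat.lt_succ_iff_lt_or_eq.mp h with h1 | h1
      · exact (ih h1).trans Finset.subset_union_left
      · rw [h1]
        exact Finset.subset_union_right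
  have hR2 : ∀ n, R ⊆ (q n).2 := by
    intro n
    induction n with
    | zero => rw [hq0]
    | succ n ih => rw [hqs n]; exact ih.trans Finset.subset_union_left
  have hfar : ∀ n, ε / 2 ≤ |g (q (n + 1)).1 - g (q n).1| := by
    intro n
    rw [hqs n]
    exact hnext2 _ _
  -- the attached sets
  let τ : ℕ → Finset (S κ) := fun n => (H (q n).1).filter fun a => (q n).1.1 a = true
  have hτR : ∀ n, R ⊆ τ n := by
    intro n a ha
    rw [Finset.mem_filter]
    refine ⟨hRH _ ha, ?_⟩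
    rw [hagree n a (hR2 n ha)]
    exact (hR a).mp ha
  have hτ1 : ∀ a n m, n < m → a ∈ τ n → a ∈ τ m → a ∈ R := by
    intro a n m hnm han ham
    rw [Finset.mem_filter] at han ham
    rw [hR a, ← hagree m a (hmono n m hnm han.1)]
    exact ham.2
  have hτ : ∀ a n n', n ≠ n' → a ∈ τ n → a ∈ τ n' → ∀ m, a ∈ τ m := by
    intro a n n' hnn' ha ha' m
    rcases lt_or_gt_of_ne hnn' with h | h
    · exact hτR m (hτ1 a n n' h ha ha')
    · exact hτR m (hτ1 a n' n h ha' ha)
  obtain ⟨k, hk⟩ := exists_tag_notMem hκ (⋃ n, (↑(H (q n).1) : Set (S κ)))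
    (Set.countable_iUnion fun n => Finset.countable_toSet _)
  obtain ⟨x, hx⟩ := exists_chain k τ
  have hadm : ∀ n, Adm (ind (↑(τ n) : Set (S κ))) := by
    intro n
    obtain ⟨m, hm⟩ := (q n).1.2.1
    refine hm.1.mono fun a ha => ?_
    rw [ind_true] at ha
    exact (Finset.mem_filter.mp ha).2
  have hw := fun n => chain_mem hx hτ n (hadm n)
  let w : ℕ → XX κ := fun n => ⟨ind (↑(τ n) ∪ Set.range x), ⟨_, (hw n).1⟩, (hw n).2⟩
  have hxinj : Function.Injective x := fun i j h => by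
    rw [← (hx i).2.1, ← (hx j).2.1, h]
  -- the limit point
  let wl : XX κ := ⟨ind (↑R ∪ Set.range x), ⟨_, KK_sub (hw 0).1 fun a ha => by
      rw [ind_true] at ha ⊢
      rcases ha with ha | ha
      · exact Or.inl (hτR 0 ha)
      · exact Or.inr ha⟩, (Set.infinite_range_of_injective hxinj).mono fun a ha =>
        ind_true.mpr (Or.inr ha)⟩
  have hlim : Tendsto w atTop (𝓝 wl) := by
    intro U hU
    obtain ⟨G, hG⟩ := (mem_nhds_X wl U).mp hU
    have h1 : ∀ a ∈ G, ∀ᶠ n in atTop, (w n).1 a = wl.1 a := by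
      intro a _
      by_cases haR : a ∈ R
      · refine Filter.Eventually.of_forall fun n => ?_
        change ind _ a = ind _ a
        rw [ind_true.mpr (Or.inl (hτR n haR)), ind_true.mpr (Or.inl haR)]
      · by_cases h2 : ∃ n, a ∈ τ n
        · obtain ⟨n, hn⟩ := h2
          filter_upwards [Filter.eventually_gt_atTop n] with m hm
          change ind _ a = ind _ a
          rw [Bool.eq_iff_iff, ind_true, ind_true]
          constructor
          · rintro (h | h)
            · exact absurd (hτ1 a n m hm hn h) haR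
            · exact Or.inr h
          · rintro (h | h)
            · exact absurd h haR
            · exact Or.inr h
        · push Not at h2
          refine Filter.Eventually.of_forall fun n => ?_
          change ind _ a = ind _ a
          rw [Bool.eq_iff_iff, ind_true, ind_true]
          constructor
          · rintro (h | h)
            · exact absurd h (h2 n)
            · exact Or.inr h
          · rintro (h | h)
            · exact absurd h haR
            · exact Or.inr h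
    have h2 : ∀ᶠ n in atTop, ∀ a ∈ G, (w n).1 a = wl.1 a :=
      (Filter.eventually_all_finset G).mpr h1
    exact h2.mono fun n hn => hG _ hn
  have hglim : Tendsto (fun n => g (w n)) atTop (𝓝 (g wl)) := (hg.tendsto wl).comp hlim
  have hclose : ∀ n, |g (w n) - g (q n).1| < ε / 8 := by
    intro n
    refine hH (q n).1 (w n) ?_
    intro a ha
    change ind _ a = _
    rw [Bool.eq_iff_iff, ind_true]
    constructor
    · rintro (h | ⟨j, rfl⟩)
      · exact (Finset.mem_filter.mp h).2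
      · exact absurd (hx j).1 (hk _ (Set.mem_iUnion.mpr ⟨n, ha⟩))
    · intro h
      exact Or.inl (Finset.mem_filter.mpr ⟨ha, h⟩)
  obtain ⟨N, hN⟩ := Metric.tendsto_atTop.mp hglim (ε / 8) (by linarith)
  have h1 := hN N le_rfl
  have h2 := hN (N + 1) (by omega)
  rw [Real.dist_eq] at h1 h2
  have h3 := hclose N
  have h4 := hclose (N + 1)
  have h5 := hfar N
  rw [abs_lt] at h1 h2 h3 h4
  rcases le_abs.mp h5 with h6 | h6 <;> linarith [h1.1, h1.2, h2.1, h2.2, h3.1, h3.2, h4.1, h4.2]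

theorem inc_di (hκ : ¬ (Set.univ : Set κ).Countable) : IsDenseInducing (inc (κ := κ)) :=
  ⟨inc_inducing, inc_dense hκ⟩

theorem exists_extension (hκ : ¬ (Set.univ : Set κ).Countable) (g : XX κ → ℝ)
    (hg : Continuous g) : ∃ G : YY κ → ℝ, Continuous G ∧ ∀ x, G (inc x) = g x := by
  classical
  have di := inc_di hκ
  refine ⟨di.extend g, di.continuous_extend ?_, fun x => di.extend_eq hg x⟩
  intro s
  by_cases hs : {a | s.1 a = true}.Infinite
  · refine ⟨g ⟨s.1, s.2, hs⟩, ?_⟩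
    have h1 : comap inc (𝓝 s) = 𝓝 (⟨s.1, s.2, hs⟩ : XX κ) := by
      rw [di.nhds_eq_comap]
      rfl
    rw [h1]
    exact hg.tendsto _
  · have hne : (comap (inc (κ := κ)) (𝓝 s)).NeBot := di.comap_nhds_neBot s
    have h2 : Cauchy (map g (comap inc (𝓝 s))) := by
      rw [Metric.cauchy_iff]
      refine ⟨inferInstance, ?_⟩
      intro ε hε
      obtain ⟨F, hF⟩ := extension_key hκ g hg s hs ε hε
      have h3 : {z : XX κ | ∀ a ∈ F, z.1 a = s.1 a} ∈ comap inc (𝓝 s) :=
        ⟨{t : YY κ | ∀ a ∈ F, t.1 a = s.1 a}, (mem_nhds_Y s _).mpr ⟨F, fun t ht => ht⟩,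
          fun z hz => hz⟩
      refine ⟨g '' {z : XX κ | ∀ a ∈ F, z.1 a = s.1 a}, Filter.image_mem_map h3, ?_⟩
      rintro _ ⟨z, hz, rfl⟩ _ ⟨z', hz', rfl⟩
      rw [Real.dist_eq]
      exact hF z z' hz hz'
    exact cauchy_iff_exists_le_nhds.mp h2

/-! ### `C_p(X)` is Lindelöf `Σ` -/

/-- The discrete topology on the index set. -/
local instance topS : TopologicalSpace (S κ) := ⊥

local instance discS : DiscreteTopology (S κ) := ⟨rfl⟩

/-- Evaluation of `y : Y` at a point of the one point compactification of the index set. -/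
def ev (z : OnePoint (S κ)) (y : YY κ) : Bool := z.elim false (fun a => y.1 a)

theorem ev_infty (y : YY κ) : ev OnePoint.infty y = false := rfl

theorem ev_coe (a : S κ) (y : YY κ) : ev (a : OnePoint (S κ)) y = y.1 a := rfl

/-- `z` is the point at infinity or has the label `l`. -/
def Lab (z : OnePoint (S κ)) (l : ℕ) : Prop := z = OnePoint.infty ∨ ∃ a : S κ, z = ↑a ∧ a.lab = l

theorem isOpen_coe_image (A : Set (S κ)) : IsOpen ((fun a : S κ => (a : OnePoint (S κ))) '' A) :=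
  OnePoint.isOpenEmbedding_coe.isOpenMap A (isOpen_discrete A)

theorem isClosed_Lab (l : ℕ) : IsClosed {z : OnePoint (S κ) | Lab z l} := by
  rw [← isOpen_compl_iff]
  have : {z : OnePoint (S κ) | Lab z l}ᶜ = (fun a : S κ => (a : OnePoint (S κ))) '' {a | a.lab ≠ l} := by
    ext z
    induction z using OnePoint.rec with
    | infty =>
      constructor
      · intro h
        exact absurd (Or.inl rfl) h
      · rintro ⟨a, _, ha⟩
        exact absurd ha (OnePoint.coe_ne_infty a)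
    | coe a =>
      constructor
      · intro h
        exact ⟨a, fun h' => h (Or.inr ⟨a, rfl, h'⟩), rfl⟩
      · rintro ⟨b, hb, hba⟩ h
        have hba' : b = a := OnePoint.coe_injective hba
        rcases h with h | ⟨c, hc, hcl⟩
        · exact absurd h (OnePoint.coe_ne_infty a)
        · have : a = c := OnePoint.coe_injective hc
          rw [← this, ← hba'] at hcl
          exact hb hcl
  rw [this]
  exact isOpen_coe_image _

theorem ev_eventually (y : YY κ) (z₀ : OnePoint (S κ)) (l : ℕ) :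
    ∀ᶠ z in 𝓝 z₀, Lab z l → ev z y = ev z₀ y := by
  induction z₀ using OnePoint.rec with
  | infty =>
    obtain ⟨m, hm⟩ := y.2
    have hfin := label_finite hm l
    have h1 : (((fun a : S κ => (a : OnePoint (S κ))) '' {a | y.1 a = true ∧ a.lab = l})ᶜ) ∈
        𝓝 (OnePoint.infty : OnePoint (S κ)) := by
      refine IsOpen.mem_nhds ?_ ?_
      · rw [isOpen_compl_iff]
        exact (hfin.image _).isClosed
      · rintro ⟨a, _, ha⟩
        exact OnePoint.coe_ne_infty a ha
    filter_upwards [h1] with z hz hl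
    rcases hl with rfl | ⟨a, rfl, hal⟩
    · rfl
    · rw [ev_coe, ev_infty]
      by_contra h
      rw [Bool.not_eq_false] at h
      exact hz ⟨a, ⟨h, hal⟩, rfl⟩
  | coe a =>
    have h1 : {(a : OnePoint (S κ))} ∈ 𝓝 (a : OnePoint (S κ)) := by
      refine IsOpen.mem_nhds ?_ rfl
      have := isOpen_coe_image ({a} : Set (S κ))
      rwa [Set.image_singleton] at this
    filter_upwards [h1] with z hz _
    rw [Set.mem_singleton_iff.mp hz]

/-- The compact factor. -/
abbrev KS (κ : Type) : Type := (YY κ → Set.Icc (-1 : ℝ) 1) × (ℕ → OnePoint (S κ))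

/-- The separable metrizable factor. -/
abbrev MS : Type := ℕ → ℕ × ℕ × ℕ

/-- The closed set. -/
def DD (κ : Type) : Set (KS κ × MS) :=
  {p | (∀ j, Lab (p.1.2 j) (p.2 j).1) ∧
    (∀ m, ∀ y : YY κ, y.1 ∈ KK κ m → ∀ y' : YY κ,
      (∀ j < (p.2 m).2.1, ev (p.1.2 j) y = ev (p.1.2 j) y') →
        |(p.1.1 y : ℝ) - p.1.1 y'| ≤ 1 / ((m : ℝ) + 1)) ∧
    (∀ m, ∀ y : YY κ, y.1 ∈ KK κ m → |(p.1.1 y : ℝ)| ≤ 1 - 1 / (((p.2 m).2.2 : ℝ) + 2))}

theorem cont_f (y : YY κ) : Continuous fun p : KS κ × MS => (p.1.1 y : ℝ) := by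
  fun_prop

theorem cont_e (j : ℕ) : Continuous fun p : KS κ × MS => p.1.2 j := by
  fun_prop

theorem cont_q (j : ℕ) : Continuous fun p : KS κ × MS => p.2 j := by
  fun_prop

theorem DD_closed : IsClosed (DD κ) := by
  rw [← isOpen_compl_iff, isOpen_iff_mem_nhds]
  intro p₀ hp₀
  have hq : ∀ j, ∀ᶠ p : KS κ × MS in 𝓝 p₀, p.2 j = p₀.2 j := by
    intro j
    have : {p₀.2 j} ∈ 𝓝 (p₀.2 j) := by simp
    exact (cont_q j).continuousAt.preimage_mem_nhds this
  by_cases ha : ∀ j, Lab (p₀.1.2 j) (p₀.2 j).1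
  · by_cases hb : ∀ m, ∀ y : YY κ, y.1 ∈ KK κ m → ∀ y' : YY κ,
      (∀ j < (p₀.2 m).2.1, ev (p₀.1.2 j) y = ev (p₀.1.2 j) y') →
        |(p₀.1.1 y : ℝ) - p₀.1.1 y'| ≤ 1 / ((m : ℝ) + 1)
    · have hc : ¬ ∀ m, ∀ y : YY κ, y.1 ∈ KK κ m →
          |(p₀.1.1 y : ℝ)| ≤ 1 - 1 / (((p₀.2 m).2.2 : ℝ) + 2) := fun hc => hp₀ ⟨ha, hb, hc⟩
      push Not at hc
      obtain ⟨m, y, hy, hlt⟩ := hc
      have h1 : ∀ᶠ p : KS κ × MS in 𝓝 p₀, 1 - 1 / (((p₀.2 m).2.2 : ℝ) + 2) < |(p.1.1 y : ℝ)| :=
        ((cont_f y).abs.tendsto p₀).eventually (lt_mem_nhds hlt)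
      filter_upwards [h1, hq m] with p hp1 hp2 hD
      have h3 := hD.2.2 m y hy
      rw [hp2] at h3
      linarith
    · push Not at hb
      obtain ⟨m, y, hy, y', hyy', hlt⟩ := hb
      have h1 : ∀ᶠ p : KS κ × MS in 𝓝 p₀, 1 / ((m : ℝ) + 1) < |(p.1.1 y : ℝ) - p.1.1 y'| :=
        ((((cont_f y).sub (cont_f y')).abs).tendsto p₀).eventually (lt_mem_nhds hlt)
      have h2 : ∀ᶠ p : KS κ × MS in 𝓝 p₀, ∀ j ∈ Finset.range (p₀.2 m).2.1,
          (Lab (p.1.2 j) (p₀.2 j).1 → ev (p.1.2 j) y = ev (p₀.1.2 j) y) ∧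
          (Lab (p.1.2 j) (p₀.2 j).1 → ev (p.1.2 j) y' = ev (p₀.1.2 j) y') ∧ p.2 j = p₀.2 j := by
        rw [Filter.eventually_all_finset]
        intro j _
        have h3 := ((cont_e j).tendsto p₀).eventually (ev_eventually y (p₀.1.2 j) (p₀.2 j).1)
        have h4 := ((cont_e j).tendsto p₀).eventually (ev_eventually y' (p₀.1.2 j) (p₀.2 j).1)
        filter_upwards [h3, h4, hq j] with p h5 h6 h7
        exact ⟨h5, h6, h7⟩
      filter_upwards [h1, h2, hq m] with p hp1 hp2 hp3 hD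
      have h3 := hD.2.1 m y hy y' ?_
      · linarith
      · intro j hj
        rw [hp3] at hj
        obtain ⟨h4, h5, h6⟩ := hp2 j (Finset.mem_range.mpr hj)
        have h7 : Lab (p.1.2 j) (p₀.2 j).1 := by rw [← h6]; exact hD.1 j
        rw [h4 h7, h5 h7]
        exact hyy' j hj
  · push Not at ha
    obtain ⟨j, hj⟩ := ha
    have h1 : ∀ᶠ p : KS κ × MS in 𝓝 p₀, ¬ Lab (p.1.2 j) (p₀.2 j).1 := by
      have h2 : {z : OnePoint (S κ) | Lab z (p₀.2 j).1}ᶜ ∈ 𝓝 (p₀.1.2 j) :=
        (isClosed_Lab _).isOpen_compl.mem_nhds hj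
      exact ((cont_e j).tendsto p₀).eventually h2
    filter_upwards [h1, hq j] with p hp1 hp2 hD
    exact hp1 (by rw [← hp2]; exact hD.1 j)

theorem abs_lt_one_of_mem {p : KS κ × MS} (hp : p ∈ DD κ) (y : YY κ) : |(p.1.1 y : ℝ)| < 1 := by
  obtain ⟨m, hm⟩ := y.2
  have h1 := hp.2.2 m y hm
  have h2 : (0 : ℝ) < 1 / (((p.2 m).2.2 : ℝ) + 2) := by positivity
  linarith

theorem cont_of_mem {p : KS κ × MS} (hp : p ∈ DD κ) : Continuous fun y : YY κ => (p.1.1 y : ℝ) := by
  rw [continuous_iff_continuousAt]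
  intro y₀
  rw [Metric.continuousAt_iff']
  intro ε hε
  obtain ⟨m₀, hm₀⟩ := y₀.2
  obtain ⟨m₁, hm₁⟩ := exists_nat_one_div_lt hε
  have hy₀ : y₀.1 ∈ KK κ (max m₀ m₁) := KK_mono (le_max_left _ _) hm₀
  have h1 : ∀ᶠ y in 𝓝 y₀, ∀ j ∈ Finset.range (p.2 (max m₀ m₁)).2.1,
      ev (p.1.2 j) y₀ = ev (p.1.2 j) y := by
    rw [Filter.eventually_all_finset]
    intro j _
    generalize p.1.2 j = z
    induction z using OnePoint.rec with
    | infty => exact Filter.Eventually.of_forall fun y => rfl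
    | coe a =>
      exact (mem_nhds_Y y₀ _).mpr ⟨{a}, fun t ht => (ht a (by simp)).symm⟩
  filter_upwards [h1] with y hy
  have h2 := hp.2.1 (max m₀ m₁) y₀ hy₀ y fun j hj => hy j (Finset.mem_range.mpr hj)
  rw [Real.dist_eq, abs_sub_comm]
  have h3 : (1 : ℝ) / (((max m₀ m₁ : ℕ) : ℝ) + 1) ≤ 1 / ((m₁ : ℝ) + 1) := by
    apply one_div_le_one_div_of_le
    · positivity
    · have : (m₁ : ℝ) ≤ ((max m₀ m₁ : ℕ) : ℝ) := by exact_mod_cast le_max_right _ _
      linarith
  linarith

/-- The map onto `C_p(X)`. -/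
noncomputable def GG (p : DD κ) : Cp (XX κ) :=
  ⟨fun x => (p.1.1.1 (inc x) : ℝ) / (1 - |(p.1.1.1 (inc x) : ℝ)|), by
    have h1 : Continuous fun x : XX κ => (p.1.1.1 (inc x) : ℝ) :=
      (cont_of_mem p.2).comp inc_inducing.continuous
    refine h1.div (continuous_const.sub h1.abs) fun x => ?_
    have := abs_lt_one_of_mem p.2 (inc x)
    intro h
    linarith⟩

theorem GG_continuous : Continuous (GG (κ := κ)) := by
  refine Continuous.subtype_mk ?_ _
  refine continuous_pi fun x => ?_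
  have h1 : Continuous fun p : DD κ => (p.1.1.1 (inc x) : ℝ) :=
    (cont_f (inc x)).comp continuous_subtype_val
  refine h1.div (continuous_const.sub h1.abs) fun p => ?_
  have := abs_lt_one_of_mem p.2 (inc x)
  intro h
  linarith

theorem unif (F : YY κ → ℝ) (hF : Continuous F) (m : ℕ) (ε : ℝ) (hε : 0 < ε) :
    ∃ J : Finset (S κ), ∀ y : YY κ, y.1 ∈ KK κ m → ∀ y' : YY κ, (∀ a ∈ J, y.1 a = y'.1 a) →
      |F y - F y'| ≤ ε := by
  classical
  refine IsCompact.induction_on (p := fun A => ∃ J : Finset (S κ), ∀ y : YY κ, y.1 ∈ A →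
    ∀ y' : YY κ, (∀ a ∈ J, y.1 a = y'.1 a) → |F y - F y'| ≤ ε) (KK_compact m) ?_ ?_ ?_ ?_
  · exact ⟨∅, fun y hy => absurd hy (Set.notMem_empty _)⟩
  · rintro A B hAB ⟨J, hJ⟩
    exact ⟨J, fun y hy => hJ y (hAB hy)⟩
  · rintro A B ⟨J, hJ⟩ ⟨J', hJ'⟩
    refine ⟨J ∪ J', fun y hy y' hyy' => ?_⟩
    rcases hy with hy | hy
    · exact hJ y hy y' fun a ha => hyy' a (Finset.mem_union_left _ ha)
    · exact hJ' y hy y' fun a ha => hyy' a (Finset.mem_union_right _ ha)
  · intro t ht
    let y₀ : YY κ := ⟨t, m, ht⟩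
    have h1 : {y : YY κ | |F y - F y₀| < ε / 2} ∈ 𝓝 y₀ := by
      have h3 := Metric.continuousAt_iff'.mp (hF.continuousAt (x := y₀)) (ε / 2) (by linarith)
      filter_upwards [h3] with y hy
      rwa [Real.dist_eq] at hy
    obtain ⟨J, hJ⟩ := (mem_nhds_Y y₀ _).mp h1
    refine ⟨{s | ∀ a ∈ J, s a = t a}, mem_nhdsWithin_of_mem_nhds
      ((mem_nhds_iff' t _).mpr ⟨J, fun s hs => hs⟩), J, ?_⟩
    intro y hy y' hyy'
    have h2 := hJ y hy
    have h3 := hJ y' fun a ha => by rw [← hyy' a ha]; exact hy a ha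
    have h4 : |F y - F y'| ≤ |F y - F y₀| + |F y₀ - F y'| := abs_sub_le _ _ _
    rw [abs_sub_comm (F y₀)] at h4
    have h5 : |F y - F y₀| < ε / 2 := h2
    have h6 : |F y' - F y₀| < ε / 2 := h3
    linarith

theorem bound (F : YY κ → ℝ) (hF : Continuous F) (hF1 : ∀ y, |F y| < 1) (m : ℕ) :
    ∃ n : ℕ, ∀ y : YY κ, y.1 ∈ KK κ m → |F y| ≤ 1 - 1 / ((n : ℝ) + 2) := by
  classical
  refine IsCompact.induction_on (p := fun A => ∃ n : ℕ, ∀ y : YY κ, y.1 ∈ A →
    |F y| ≤ 1 - 1 / ((n : ℝ) + 2)) (KK_compact m) ?_ ?_ ?_ ?_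
  · exact ⟨0, fun y hy => absurd hy (Set.notMem_empty _)⟩
  · rintro A B hAB ⟨J, hJ⟩
    exact ⟨J, fun y hy => hJ y (hAB hy)⟩
  · rintro A B ⟨n, hn⟩ ⟨n', hn'⟩
    refine ⟨max n n', fun y hy => ?_⟩
    have key : ∀ i : ℕ, i ≤ max n n' → (1 : ℝ) - 1 / ((i : ℝ) + 2) ≤
        1 - 1 / (((max n n' : ℕ) : ℝ) + 2) := by
      intro i hi
      have : (1 : ℝ) / (((max n n' : ℕ) : ℝ) + 2) ≤ 1 / ((i : ℝ) + 2) := by
        apply one_div_le_one_div_of_le
        · positivity
        · have : (i : ℝ) ≤ ((max n n' : ℕ) : ℝ) := by exact_mod_cast hi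
          linarith
      linarith
    rcases hy with hy | hy
    · exact (hn y hy).trans (key n (le_max_left _ _))
    · exact (hn' y hy).trans (key n' (le_max_right _ _))
  · intro t ht
    let y₀ : YY κ := ⟨t, m, ht⟩
    obtain ⟨n, hn⟩ := exists_nat_one_div_lt (sub_pos.mpr (hF1 y₀))
    have hlt : |F y₀| < 1 - 1 / ((n : ℝ) + 2) := by
      have : (1 : ℝ) / ((n : ℝ) + 2) ≤ 1 / ((n : ℝ) + 1) := by
        apply one_div_le_one_div_of_le
        · positivity
        · linarith
      linarith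
    have h1 : {y : YY κ | |F y| < 1 - 1 / ((n : ℝ) + 2)} ∈ 𝓝 y₀ :=
      (hF.abs.tendsto y₀).eventually (gt_mem_nhds hlt)
    obtain ⟨J, hJ⟩ := (mem_nhds_Y y₀ _).mp h1
    refine ⟨{s | ∀ a ∈ J, s a = t a}, mem_nhdsWithin_of_mem_nhds
      ((mem_nhds_iff' t _).mpr ⟨J, fun s hs => hs⟩), n, ?_⟩
    intro y hy
    exact le_of_lt (hJ y hy)

theorem GG_surjective (hκ : ¬ (Set.univ : Set κ).Countable) : Function.Surjective (GG (κ := κ)) := by
  classical
  intro h
  obtain ⟨G, hG, hGh⟩ := exists_extension hκ h.1 h.2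
  let F : YY κ → ℝ := fun y => G y / (1 + |G y|)
  have hpos : ∀ y, (0 : ℝ) < 1 + |G y| := fun y => by positivity
  have hF : Continuous F := hG.div (continuous_const.add hG.abs) fun y => (hpos y).ne'
  have habs : ∀ y, |F y| = |G y| / (1 + |G y|) := fun y => by
    simp only [F]
    rw [abs_div, abs_of_pos (hpos y)]
  have hF1 : ∀ y, |F y| < 1 := fun y => by
    rw [habs y, div_lt_one (hpos y)]
    linarith
  choose J hJ using fun m : ℕ => unif F hF m (1 / ((m : ℝ) + 1)) (by positivity)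
  choose N hN using fun m : ℕ => bound F hF hF1 m
  -- enumeration of the coordinates
  let s : Set (OnePoint (S κ)) := insert OnePoint.infty (⋃ m, (fun a : S κ => (a : OnePoint (S κ))) '' (J m))
  have hs : s.Countable := (Set.countable_iUnion fun m =>
    ((J m).countable_toSet.image _)).insert _
  obtain ⟨e, he⟩ := hs.exists_eq_range ⟨_, Set.mem_insert _ _⟩
  have hidx : ∀ m, ∃ n : ℕ, ∀ a ∈ J m, ∃ j < n, e j = (a : OnePoint (S κ)) := by
    intro m
    have h1 : ∀ a ∈ J m, ∃ j, e j = (a : OnePoint (S κ)) := by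
      intro a ha
      have h2 : (a : OnePoint (S κ)) ∈ s := Or.inr (Set.mem_iUnion.mpr ⟨m, a, ha, rfl⟩)
      rw [he] at h2
      exact h2
    choose! idx hidx using h1
    refine ⟨(J m).sup idx + 1, fun a ha => ⟨idx a, ?_, hidx a ha⟩⟩
    exact Nat.lt_succ_of_le (Finset.le_sup (f := idx) ha)
  choose n hn using hidx
  let lb : OnePoint (S κ) → ℕ := fun z => z.elim 0 S.lab
  let q : MS := fun j => (lb (e j), n j, N j)
  let f : YY κ → Set.Icc (-1 : ℝ) 1 := fun y => ⟨F y, abs_le.mp (hF1 y).le⟩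
  have hmem : ((f, e), q) ∈ DD κ := by
    refine ⟨?_, ?_, ?_⟩
    · intro j
      change Lab (e j) (lb (e j))
      generalize e j = z
      induction z using OnePoint.rec with
      | infty => exact Or.inl rfl
      | coe a => exact Or.inr ⟨a, rfl, rfl⟩
    · intro m y hy y' hyy'
      refine hJ m y hy y' fun a ha => ?_
      obtain ⟨j, hj, hja⟩ := hn m a ha
      have h1 : ev (e j) y = ev (e j) y' := hyy' j hj
      rw [hja] at h1
      exact h1
    · intro m y hy
      exact hN m y hy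
  refine ⟨⟨((f, e), q), hmem⟩, ?_⟩
  apply Subtype.ext
  funext x
  change F (inc x) / (1 - |F (inc x)|) = h.1 x
  rw [habs, ← hGh x]
  simp only [F]
  have h1 := hpos (inc x)
  have h2 : 1 - |G (inc x)| / (1 + |G (inc x)|) = 1 / (1 + |G (inc x)|) := by
    field_simp
    ring
  rw [h2]
  field_simp

theorem lindelofSigma_XX (hκ : ¬ (Set.univ : Set κ).Countable) : IsLindelofSigma (Cp (XX κ)) :=
  ⟨KS κ, MS, inferInstance, inferInstance, DD κ, GG, inferInstance, inferInstance, inferInstance,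
    inferInstance, DD_closed, GG_continuous, GG_surjective hκ⟩

theorem mk_XX : #κ ≤ #(XX κ) := by
  classical
  choose x hx using fun k : κ => exists_chain k (fun _ => (∅ : Finset (S κ)))
  have hadm : Adm (ind (↑(∅ : Finset (S κ)) : Set (S κ))) := by
    refine ⟨fun b hb => ?_, fun a b ha => ?_, fun b a a' hb => ?_⟩
    · rw [ind_true] at hb
      simp at hb
    · rw [ind_true] at ha
      simp at ha
    · rw [ind_true] at hb
      simp at hb
  have hw := fun k => chain_mem (hx k) (fun a n n' _ ha _ _ => ha) 0 hadm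
  let w : κ → XX κ := fun k => ⟨ind (↑(∅ : Finset (S κ)) ∪ Set.range (x k)), ⟨_, (hw k).1⟩, (hw k).2⟩
  have hinj : Function.Injective w := by
    intro k k' hkk'
    have h1 : (w k).1 (x k 0) = true := ind_true.mpr (Or.inr ⟨0, rfl⟩)
    rw [hkk'] at h1
    have h2 := ind_true.mp h1
    rcases h2 with h2 | ⟨j, hj⟩
    · simp at h2
    · rw [← (hx k 0).1, ← hj, (hx k' j).1]
  exact Cardinal.mk_le_of_injective hinj

/-- **Theorem.** There is a first countable Tychonoff space `X` (so that all points of `X` are `G_δ`)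
such that `C_p(X)` is a Lindelöf `Σ`-space and `|X| > 𝔠`. -/
theorem result : ∃ (X : Type) (_ : TopologicalSpace X),
    T35Space X ∧ FirstCountableTopology X ∧ (∀ x : X, IsGδ {x}) ∧ IsLindelofSigma (Cp X) ∧
      𝔠 < #X := by
  have hκ : ¬ (Set.univ : Set (Set ℝ)).Countable := by
    intro h
    have h1 : #(Set ℝ) ≤ ℵ₀ := by
      rw [← Cardinal.mk_univ]
      exact Cardinal.le_aleph0_iff_set_countable.mpr h
    have h2 : 𝔠 < #(Set ℝ) := by
      rw [Cardinal.mk_set, Cardinal.mk_real]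
      exact Cardinal.cantor _
    exact absurd (h2.le.trans h1) (not_le.mpr Cardinal.aleph0_lt_continuum)
  have hT := t35_XX (κ := Set ℝ)
  have hF := fc_XX (κ := Set ℝ)
  refine ⟨XX (Set ℝ), inferInstance, hT, hF, fun x => ?_, lindelofSigma_XX hκ, ?_⟩
  · exact IsGδ.singleton x
  · refine lt_of_lt_of_le ?_ mk_XX
    rw [Cardinal.mk_set, Cardinal.mk_real]
    exact Cardinal.cantor _

end Pool.Agent.Results.MP_5155e4_gt.Counterexample
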